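import Pool.Agent.helper36.PP.SpecB
import Pool.Agent.helper51.MP.MU1

/-!
# pp:MU1: the measure of layers
-/

set_option autoImplicit false

open Complex Metric Set Filter Topology MeasureTheory MPS

noncomputable section

namespace PPS

theorem MU1_per {k : ℕ} [NeZero k] (b g : ZMod k → ℂ) (G : ℕ → ℂ → ℂ) (q : ℕ) :
    Function.Periodic (lev b g (GW G) q) (2 * Real.pi * I) := by
  intro w
  have h1 : ∀ q, ∀ w, GW G q (w + 2 * Real.pi * I) = GW G q w := by
    intro q w
    simp only [GW]
    rw [Complex.exp_periodic]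
  have h2 : ∀ q, ∀ w, deriv (GW G q) (w + 2 * Real.pi * I) = deriv (GW G q) w := by
    intro q w
    rw [← deriv_comp_add_const]
    congr 1
    funext x
    exact h1 q x
  simp only [lev, tau, h1, h2]

theorem MU1 (hP1A : P1A_stmt) (hP1L : P1L_stmt) (hLEA : LEA_stmt) (hHSM : MPS.HSM_stmt) :
    MU1_stmt := by
  intro n k _ f b g ψ ra R ε δ A G Q H
  have hP := hP1L n k f b g ψ ra R ε δ A G Q H
  have hA := hP1A n k f b g ψ ra R ε δ A G Q H
  set F : ℕ → ℂ → ENNReal := fun q w => ENNReal.ofReal (lev b g (GW G) q w) with hF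
  have hfper : ∀ q, Function.Periodic (F q) (2 * Real.pi * I) := by
    intro q w
    simp only [hF]
    rw [MU1_per b g G q w]
  set S : ℕ → Set ℂ := fun q =>
    {w : ℂ | w.re < -A q ∧ -(2 * Real.pi) < w.im ∧ w.im < 4 * Real.pi} with hS
  set ν : Measure ℂ := ∑ q ∈ Finset.Icc 1 Q, (volume.restrict (S q)).withDensity (F q) with hν
  have hmeas : Measurable (fun w : ℂ => -w.re) := Complex.measurable_re.neg
  refine ⟨ν.map (fun w => -w.re), ?_, ?_⟩
  · rw [Measure.map_apply hmeas MeasurableSet.univ, preimage_univ, hν,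
      Measure.finsetSum_apply]
    calc ∑ q ∈ Finset.Icc 1 Q, (volume.restrict (S q)).withDensity (F q) univ
        = ∑ q ∈ Finset.Icc 1 Q, ∫⁻ w in S q, F q w := by
          refine Finset.sum_congr rfl fun q _ => ?_
          rw [withDensity_apply _ MeasurableSet.univ, Measure.restrict_univ]
      _ ≤ ∑ q ∈ Finset.Icc 1 Q, 3 * ∫⁻ w in
            {w : ℂ | w.re < -A q ∧ 0 < w.im ∧ w.im < 2 * Real.pi}, F q w :=
          Finset.sum_le_sum fun q _ => MU1_three (F q) (hfper q) _
      _ = 3 * ∑ q ∈ Finset.Icc 1 Q, ∫⁻ w in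
            {w : ℂ | w.re < -A q ∧ 0 < w.im ∧ w.im < 2 * Real.pi}, F q w := by
          rw [Finset.mul_sum]
      _ ≤ 3 * ENNReal.ofReal ε := mul_le_mul_right hP _
      _ = ENNReal.ofReal (3 * ε) := by
          rw [ENNReal.ofReal_mul (by norm_num : (0:ℝ) ≤ 3)]
          simp
  · intro p hp1 hpQ s t w hs ht0 ht1 hw
    have hmono : ∀ m, m ≤ p → A m ≤ A p := by
      intro m hm
      have : ∀ d, m + d ≤ p → A m ≤ A (m + d) := by
        intro d
        induction d with
        | zero => intro _; exact le_rfl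
        | succ d ih =>
          intro hd
          exact (ih (by omega)).trans (H.sys.mono (m + d) (by omega))
      have h := this (p - m) (by omega)
      rwa [Nat.add_sub_cancel' hm] at h
    -- shift
    obtain ⟨m, hm0, hm1⟩ : ∃ m : ℤ, 0 ≤ (w + m * (2 * Real.pi * I)).im ∧
        (w + m * (2 * Real.pi * I)).im < 2 * Real.pi := by
      refine ⟨-⌊w.im / (2 * Real.pi)⌋, ?_⟩
      have him : (w + ((-⌊w.im / (2 * Real.pi)⌋ : ℤ) : ℂ) * (2 * Real.pi * I)).im =
          w.im - ⌊w.im / (2 * Real.pi)⌋ * (2 * Real.pi) := by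
        have : (w + ((-⌊w.im / (2 * Real.pi)⌋ : ℤ) : ℂ) * (2 * Real.pi * I)) =
          w + ((((-⌊w.im / (2 * Real.pi)⌋ : ℤ) : ℝ) * (2 * Real.pi) : ℝ) : ℂ) * I := by
          push_cast; ring
        rw [this, add_im, MU1_im]
        push_cast; ring
      rw [him]
      exact ⟨Int.sub_floor_div_mul_nonneg _ (by positivity),
        Int.sub_floor_div_mul_lt _ (by positivity)⟩
    have hre : (w + m * (2 * Real.pi * I)).re = w.re := by
      have : (w + (m : ℂ) * (2 * Real.pi * I)) = w + (((m : ℝ) * (2 * Real.pi) : ℝ) : ℂ) * I := by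
        push_cast; ring
      rw [this, add_re, MU1_re, add_zero]
    set w' : ℂ := w + m * (2 * Real.pi * I) with hw'
    have hlev : ∀ q, lev b g (GW G) q w = lev b g (GW G) q w' := by
      intro q
      exact ((MU1_per b g G q).int_mul m w).symm
    have hLS := hA.2.2.2.1 p hpQ
    have hopen : IsOpen (HP (A p)) := isOpen_lt Complex.continuous_re continuous_const
    have hL := hLEA k f b g (GW G) (HP (A p)) p H.su.cyc hopen hLS
    have hball : ∀ z ∈ ball w' (t / 2), z ∈ HP (A p) ∧ -(2 * Real.pi) < z.im ∧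
        z.im < 4 * Real.pi ∧ s + t / 2 < -z.re ∧ -z.re < s + 3 * t / 2 := by
      intro z hz
      rw [mem_ball, dist_eq_norm] at hz
      have h1 := (Complex.abs_re_le_norm (z - w')).trans_lt hz
      have h2 := (Complex.abs_im_le_norm (z - w')).trans_lt hz
      rw [abs_lt, sub_re, hre, hw] at h1
      rw [abs_lt, sub_im] at h2
      have hpi := Real.pi_gt_three
      refine ⟨?_, by linarith [h2.1], by linarith [h2.2], by linarith [h1.2], by linarith [h1.1]⟩
      change z.re < -A p
      linarith [h1.2]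
    have hsubHP : ball w' (t / 2) ⊆ HP (A p) := fun z hz => (hball z hz).1
    -- the family
    set hh : ℕ → ℂ → ℂ := fun q z => tau b g (GW G) (q - 1) z - tau b g (GW G) q z with hhdef
    have hsum : ∀ z, ∑ q ∈ Finset.Icc 1 p, ‖hh q z‖ =
        ∑ q ∈ Finset.Icc 1 p, lev b g (GW G) q z := fun z => rfl
    have hdiff : ∀ q ∈ Finset.Icc 1 p, DifferentiableOn ℂ (hh q) (HP (A p)) := by
      intro q hq
      rw [Finset.mem_Icc] at hq
      exact (hL.2.2.1 (q - 1) (by omega)).sub (hL.2.2.1 q hq.2)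
    have hkey := hHSM ℕ (Finset.Icc 1 p) hh w' (t / 2) (by positivity)
      (fun i hi => (hdiff i hi).mono hsubHP)
    simp only [hsum] at hkey
    have hlevnn : ∀ q z, 0 ≤ lev b g (GW G) q z := fun q z => norm_nonneg _
    have hcont : ∀ q ∈ Finset.Icc 1 p, ContinuousOn (lev b g (GW G) q) (HP (A p)) :=
      fun q hq => (hdiff q hq).continuousOn.norm
    have hint : ∫⁻ z in ball w' (t / 2), ENNReal.ofReal (∑ q ∈ Finset.Icc 1 p,
        lev b g (GW G) q z) = ∑ q ∈ Finset.Icc 1 p, ∫⁻ z in ball w' (t / 2), F q z := by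
      rw [← lintegral_finsetSum']
      · refine lintegral_congr fun z => ?_
        rw [ENNReal.ofReal_sum_of_nonneg (fun q _ => hlevnn q z)]
      · intro q hq
        exact ((hcont q hq).mono hsubHP).aemeasurable measurableSet_ball |>.ennreal_ofReal
    have hpre : (ν.map (fun w : ℂ => -w.re)) (Ioo (s + t / 2) (s + 3 * t / 2)) =
        ∑ q ∈ Finset.Icc 1 Q, ∫⁻ z in (fun w : ℂ => -w.re) ⁻¹' (Ioo (s + t / 2) (s + 3 * t / 2)) ∩
          S q, F q z := by
      rw [Measure.map_apply hmeas measurableSet_Ioo, hν, Measure.finsetSum_apply]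
      refine Finset.sum_congr rfl fun q _ => ?_
      rw [withDensity_apply _ (hmeas measurableSet_Ioo), Measure.restrict_restrict
        (hmeas measurableSet_Ioo)]
    have hle : ENNReal.ofReal (Real.pi * (t / 2) ^ 2 * ∑ q ∈ Finset.Icc 1 p,
        lev b g (GW G) q w') ≤ (ν.map (fun w : ℂ => -w.re)) (Ioo (s + t / 2) (s + 3 * t / 2)) := by
      refine hkey.trans ?_
      rw [hint, hpre]
      calc ∑ q ∈ Finset.Icc 1 p, ∫⁻ z in ball w' (t / 2), F q z
          ≤ ∑ q ∈ Finset.Icc 1 p, ∫⁻ z in (fun w : ℂ => -w.re) ⁻¹'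
            (Ioo (s + t / 2) (s + 3 * t / 2)) ∩ S q, F q z := by
            refine Finset.sum_le_sum fun q hq => lintegral_mono_set ?_
            intro z hz
            have h1 := hball z hz
            refine ⟨⟨h1.2.2.2.1, h1.2.2.2.2⟩, ?_, h1.2.1, h1.2.2.1⟩
            have h2 : z.re < -A p := h1.1
            have h3 := hmono q (Finset.mem_Icc.mp hq).2
            linarith
        _ ≤ _ := by
            refine Finset.sum_le_sum_of_subset ?_
            exact Finset.Icc_subset_Icc le_rfl hpQ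
    calc ENNReal.ofReal (∑ q ∈ Finset.Icc 1 p, lev b g (GW G) q w)
        = ENNReal.ofReal (∑ q ∈ Finset.Icc 1 p, lev b g (GW G) q w') := by
          congr 1
          exact Finset.sum_congr rfl fun q _ => hlev q
      _ = ENNReal.ofReal (4 / (Real.pi * t ^ 2)) * ENNReal.ofReal (Real.pi * (t / 2) ^ 2 *
            ∑ q ∈ Finset.Icc 1 p, lev b g (GW G) q w') := by
          rw [← ENNReal.ofReal_mul (by positivity)]
          congr 1
          have hpi := Real.pi_ne_zero
          field_simp
          ring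
      _ ≤ _ := mul_le_mul_right hle _

end PPS
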