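import Pool.Agent.helper36.PP.SpecC
import Pool.Agent.helper28.MP.P2A

/-!
# pp:P2A: structure of a Phase 2 system (adapted from helper28/MP/P2A.lean)
-/

set_option autoImplicit false

open Complex Metric Set Filter Topology MeasureTheory MPS

noncomputable section

namespace PPS

theorem P2A_re (y ρ₁ : ℝ) : (ctr y ρ₁).re = -(ρ₁ / 4) := by
  have e1 : ctr y ρ₁ = (y : ℂ) * I - ((ρ₁ / 4 : ℝ) : ℂ) := by
    unfold ctr
    push_cast
    ring
  rw [e1, sub_re, ofReal_re]
  simp

theorem P2A (hLUN : LUN_stmt) (hP2H : P2H_stmt) : P2A_stmt := by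
  intro n k _ f b g ψ ra R ε y ρ₁ χ G1 ps T G Q hH
  obtain ⟨h2, hsys, hQk⟩ := hH
  obtain ⟨-, hP2, hinj, -, hsub2⟩ := hP2H n k f b g ψ ra R ε y ρ₁ χ G1 ps h2
  have hr0 := h2.r0
  have hsu := h2.su
  have hxre : (ctr y ρ₁).re = -(ρ₁ / 4) := P2A_re y ρ₁
  set x : ℂ := ctr y ρ₁ with hx
  -- monotonicity
  have hanti : ∀ q q', q ≤ q' → q' ≤ Q → T q' ≤ T q := by
    intro q q' hqq
    induction q', hqq using Nat.le_induction with
    | base => intro _; exact le_rfl
    | succ m hm ih =>
      intro hmQ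
      exact (hsys.anti m (by omega)).trans (ih (by omega))
  have hTρ : ∀ q ≤ Q, T q ≤ 9 * ρ₁ / 8 := fun q hq => (hanti 0 q (by omega) hq).trans hsys.t0
  have hrel : ∀ q < Q, ∀ w ∈ ball x (T (q + 1)), f.eval (G (q + 1) w) = G q w ∧
      fd f (G (q + 1) w) ≠ 0 := hsys.rel
  have hiter : ∀ d q, q + d ≤ Q → ∀ w ∈ ball x (T (q + d)),
      (fun z : ℂ => f.eval z)^[d] (G (q + d) w) = G q w := by
    intro d
    induction d with
    | zero => intro q _ w _; rfl
    | succ d ih =>
      intro q hq w hw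
      rw [Function.iterate_succ_apply]
      have h1 := (hrel (q + d) (by omega) w hw).1
      change (fun z : ℂ => f.eval z)^[d] (f.eval (G (q + d + 1) w)) = G q w
      rw [h1]
      exact ih q (by omega) w (ball_subset_ball (hanti (q + d) (q + (d + 1)) (by omega) hq) hw)
  have hiter0 : ∀ q ≤ Q, ∀ w ∈ ball x (T q),
      (fun z : ℂ => f.eval z)^[q] (G q w) = χ w := by
    intro q hq w hw
    have h1 := hiter q 0 (by omega) w (by rwa [zero_add])
    rw [zero_add, hsys.g0] at h1
    exact h1
  -- the centre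
  have hw₀ball : ∀ q ≤ Q, x ∈ ball x (T q) := by
    intro q hq
    refine mem_ball_self ?_
    have := hsys.low q hq
    linarith
  have hHPo : IsOpen (HP (3 * (ρ₁ / 64))) := by
    unfold HP
    exact isOpen_lt Complex.continuous_re continuous_const
  have hHPc : Convex ℝ (HP (3 * (ρ₁ / 64))) := convex_halfSpace_re_lt _
  have hw₀HP : x ∈ HP (3 * (ρ₁ / 64)) := by
    change x.re < -(3 * (ρ₁ / 64))
    rw [hxre]
    linarith
  have hexp : ∀ w ∈ HP (3 * (ρ₁ / 64)), Complex.exp w ∈ ball (0 : ℂ) (Real.exp (-(3 * (ρ₁ / 64)))) := by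
    intro w hw
    rw [mem_ball_zero_iff, Complex.norm_exp]
    exact Real.exp_lt_exp.mpr hw
  -- first claim
  have c1 : ∀ q ≤ Q, ∀ w ∈ ball x (T q), w.re < -(3 * (ρ₁ / 64)) → G q w = GW G1 q w := by
    intro q
    induction q with
    | zero =>
      intro _ w _ hw
      have hw0 : w ∈ HP 0 := by
        change w.re < -0
        linarith
      rw [hsys.g0, h2.ext hw0]
      unfold GW hat
      rw [h2.s1.g0]
    | succ q ih =>
      intro hq w hw hwre
      have hΩc : Convex ℝ (ball x (T (q + 1)) ∩ HP (3 * (ρ₁ / 64))) :=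
        (convex_ball _ _).inter hHPc
      have hval : G (q + 1) x = GW G1 (q + 1) x := hsys.val (q + 1) hq
      have key := hLUN f (ball x (T (q + 1)) ∩ HP (3 * (ρ₁ / 64))) (G (q + 1)) (GW G1 (q + 1))
        x (isOpen_ball.inter hHPo) hΩc.isPreconnected
        ((hsys.diff (q + 1) hq).continuousOn.mono inter_subset_left) ?_ ?_ ?_
        ⟨hw₀ball _ hq, hw₀HP⟩ hval
      · exact key ⟨hw, hwre⟩
      · have h1 := (h2.s1.diff (q + 1) (by omega) (by omega)).continuousOn
        exact h1.comp Complex.continuous_exp.continuousOn (fun z hz => hexp z hz.2)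
      · intro z hz
        have h1 := (hrel q (by omega) z hz.1).1
        have h3 := (h2.s1.rel q (by omega) (Complex.exp z) (hexp z hz.2)).1
        have h4 := ih (by omega) z (ball_subset_ball (hanti q (q + 1) (by omega) hq) hz.1) hz.2
        show f.eval (G (q + 1) z) = f.eval (G1 (q + 1) (Complex.exp z))
        rw [h1, h3, h4]
        rfl
      · intro z hz
        exact (hrel q (by omega) z hz.1).2
  -- injectivity
  have c2 : ∀ q ≤ Q, InjOn (G q) (ball x (T q)) := by
    intro q hq w hw w' hw' he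
    have h1 := hiter0 q hq w hw
    have h3 := hiter0 q hq w' hw'
    rw [he, h3] at h1
    exact (hinj (ball_subset_ball (hTρ q hq) hw') (ball_subset_ball (hTρ q hq) hw) h1).symm
  have c3 : ∀ q ≤ Q, MapsTo (G q) (ball x (T q)) (ball 0 R) := by
    intro q
    induction q with
    | zero =>
      intro hq w hw
      rw [hsys.g0]
      exact h2.mp1 (ball_subset_ball hsys.t0 hw)
    | succ q ih =>
      intro hq w hw
      have h1 := ih (by omega) (ball_subset_ball (hanti q (q + 1) (by omega) hq) hw)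
      rw [← (hrel q (by omega) w hw).1, mem_ball_zero_iff] at h1
      rw [mem_ball_zero_iff]
      exact hsu.inv _ h1
  have c4 : ∀ q ≤ Q, LevSys f b g G (ball x (T q)) q := by
    intro q hq
    refine ⟨?_, ?_, ?_⟩
    · rw [hsys.g0]
      have hsub : ball x (T q) ⊆ HP 0 ∪ ball ((y : ℂ) * I) (16 * ρ₁) := by
        intro w hw
        right
        exact ball_subset_ball (by linarith) (hsub2 (ball_subset_ball (hTρ q hq) hw))
      exact ⟨h2.nat.diff.mono hsub, fun w hw => h2.nat.av w (hsub hw),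
        fun w hw => h2.nat.eq w (hsub hw)⟩
    · intro q' hq'
      exact (hsys.diff q' (by omega)).mono (ball_subset_ball (hanti q' q hq' hq))
    · intro q' hq' w hw
      exact hrel q' (by omega) w (ball_subset_ball (hanti (q' + 1) q (by omega) hq) hw)
  refine ⟨c1, c2, c3, c4, ?_, ?_, ?_⟩
  · intro z F hF
    refine P2A_card F ps ?_
    intro q hq q' hq' hqq
    obtain ⟨hqQ, w, hw, hwz⟩ := hF q hq
    obtain ⟨hqQ', w', hw', hwz'⟩ := hF q' hq'
    by_contra hne
    have h1 := hiter0 q (by omega) w (ball_subset_ball (hanti q (q + 1) (by omega) (by omega)) hw)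
    have h3 := hiter q (q' - q) (by omega) w'
      (by
        have h4 : q' - q + q = q' := by omega
        rw [h4]
        exact ball_subset_ball (hanti q' (q' + 1) (by omega) (by omega)) hw')
    have h4 : q' - q + q = q' := by omega
    rw [h4, hwz'] at h3
    rw [hwz] at h1
    have h5 := hsys.disj (q' - q) (by omega) (by omega) hne
    refine Set.disjoint_left.mp h5 ⟨w', ?_, rfl⟩ ⟨w, ?_, ?_⟩
    · exact ball_subset_ball (hanti (q' - q + 1) (q' + 1) (by omega) (by omega)) hw'
    · exact ball_subset_ball (hTρ (q + 1) (by omega)) hw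
    · rw [← h1, h3]
  · intro r hr hdis z F hF
    refine P2A_card F ps ?_
    intro q hq q' hq' hqq
    obtain ⟨hqQ, w, hw, hwz⟩ := hF q hq
    obtain ⟨hqQ', w', hw', hwz'⟩ := hF q' hq'
    by_contra hne
    have h1 := hiter0 q (by omega) w
      (ball_subset_ball (hr.trans (hanti q Q (by omega) le_rfl)) hw)
    have h3 := hiter q (q' - q) (by omega) w'
      (by
        have h4 : q' - q + q = q' := by omega
        rw [h4]
        exact ball_subset_ball (hr.trans (hanti q' Q (by omega) le_rfl)) hw')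
    have h4 : q' - q + q = q' := by omega
    rw [h4, hwz'] at h3
    rw [hwz] at h1
    have hwρ : w ∈ ball x (9 * ρ₁ / 8) := ball_subset_ball (hr.trans (hTρ Q le_rfl)) hw
    by_cases hpQ : q' - q < Q
    · have h5 := hsys.disj (q' - q) (by omega) hpQ hne
      refine Set.disjoint_left.mp h5 ⟨w', ?_, rfl⟩ ⟨w, hwρ, ?_⟩
      · exact ball_subset_ball (hr.trans (hanti (q' - q + 1) Q (by omega) le_rfl)) hw'
      · rw [← h1, h3]
    · have hpQ' : q' - q = Q := by omega
      rw [hpQ'] at hne h3
      have h5 := hdis (by omega) hne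
      refine Set.disjoint_left.mp h5 ⟨w', hw', rfl⟩ ⟨w, hwρ, ?_⟩
      rw [← h1, h3]
  · have hev : ∀ q ≤ Q, G q =ᶠ[𝓝 x] GW G1 q := by
      intro q hq
      filter_upwards [isOpen_ball.mem_nhds (hw₀ball q hq), hHPo.mem_nhds hw₀HP] with z hz hz2
      exact c1 q hq z hz hz2
    have hlev : ∀ q ∈ Finset.Icc 1 Q, lev b g G q x = lev b g (GW G1) q x := by
      intro q hq
      rw [Finset.mem_Icc] at hq
      unfold lev tau
      rw [(hev q hq.2).deriv_eq, (hev q hq.2).eq_of_nhds, (hev (q - 1) (by omega)).deriv_eq,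
        (hev (q - 1) (by omega)).eq_of_nhds]
    rw [Finset.sum_congr rfl hlev]
    refine le_trans ?_ hP2
    refine Finset.sum_le_sum_of_subset_of_nonneg (Finset.Icc_subset_Icc le_rfl hQk) ?_
    intro q _ _
    exact norm_nonneg _

end PPS
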