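import Pool.Agent.helper36.PP.SpecC

/-!
# pp:P2H: the Phase 1 data inside Phase 2
-/

set_option autoImplicit false

open Complex Metric Set Filter Topology MeasureTheory MPS

noncomputable section

namespace PPS

theorem P2H_re (y ρ₁ : ℝ) : (ctr y ρ₁).re = -(ρ₁ / 4) := by
  have e1 : ctr y ρ₁ = (y : ℂ) * I - ((ρ₁ / 4 : ℝ) : ℂ) := by
    unfold ctr
    push_cast
    ring
  rw [e1, sub_re, ofReal_re]
  simp

theorem P2H_dist (y ρ₁ : ℝ) (h : 0 < ρ₁) : dist (ctr y ρ₁) ((y : ℂ) * I) = ρ₁ / 4 := by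
  have e1 : ctr y ρ₁ - (y : ℂ) * I = ((-(ρ₁ / 4) : ℝ) : ℂ) := by
    unfold ctr
    push_cast
    ring
  rw [dist_eq_norm, e1, Complex.norm_real, Real.norm_eq_abs, abs_neg, abs_of_pos (by positivity)]

theorem P2H (hNFI : MPS.NFI_stmt) (hPT1 : PT1_stmt) : P2H_stmt := by
  intro n k _ f b g ψ ra R ε y ρ₁ χ G1 ps H
  have hr0 := H.r0
  have hr1 := H.r1
  have hH : ∀ Q ≤ k, H1 n k f b g ψ ra R ε (ρ₁ / 64) (fun _ => 3 * (ρ₁ / 64)) G1 Q := by
    intro Q hQ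
    refine ⟨H.su, by positivity, by linarith, H.mp0, ?_, hQ⟩
    have h := H.s1
    exact ⟨h.a0, fun _ _ => le_rfl, h.g0, fun q h1 h2 => h.diff q h1 (h2.trans hQ),
      fun q h1 => h.rel q (h1.trans_le hQ), fun q h1 => h.val q (h1.trans hQ),
      fun q h1 h2 => h.disj q h1 (h2.trans_le hQ)⟩
  have hk := H.su.hk
  have hε : 0 ≤ ε := by
    refine le_trans ?_ H.su.hE
    have h1 : 0 ≤ ∫ z in ball (0 : ℂ) R, ‖er f b g z‖ :=
      integral_nonneg fun z => norm_nonneg _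
    have h2 : 0 ≤ Real.log ‖rho f b‖ := Real.log_nonneg H.su.rho1.le
    have h3 := Real.pi_pos
    positivity
  have hsub : ball (ctr y ρ₁) (9 * ρ₁ / 8) ⊆ ball ((y : ℂ) * I) (2 * ρ₁) := by
    refine ball_subset_ball' ?_
    rw [P2H_dist y ρ₁ hr0]
    linarith
  refine ⟨hH, ?_, ?_, ?_, hsub⟩
  · have h1 := hPT1 n k f b g ψ ra R ε (ρ₁ / 64) (fun _ => 3 * (ρ₁ / 64)) G1 k (hH k le_rfl) k
      (by omega) le_rfl (ctr y ρ₁) (13 * ρ₁ / 64) (by positivity) (by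
        rw [P2H_re]
        ring)
    refine (h1.1 (by linarith)).trans ?_
    rw [div_le_div_iff₀ (by positivity) (by positivity)]
    have h2 : 0 ≤ ε * ρ₁ ^ 2 := by positivity
    nlinarith [h2]
  · have h1 := hNFI k b g 0 (ψ 0) χ y (16 * ρ₁) (H.su.mx 0).pn (by positivity) hr1 H.nat H.ext
    exact h1.mono (hsub.trans (ball_subset_ball (by linarith)))
  · intro w hw
    rw [mem_ball, dist_eq_norm] at hw
    have h1 := (Complex.abs_re_le_norm (w - ctr y ρ₁)).trans_lt hw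
    rw [abs_lt, sub_re, P2H_re] at h1
    change w.re < -(3 * (ρ₁ / 64))
    linarith [h1.2]

end PPS
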