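import Pool.Agent.helper36.PP.SpecD
import Pool.Agent.helper90.MQ.ROTQ

/-! # Module pp:ROTQ (adapted from mq:ROTQ, helper90) -/

set_option autoImplicit false

open Complex Metric Set Filter Topology MeasureTheory MPS

noncomputable section

namespace PPS

/-- two Phase 1 systems over the same map agree. -/
theorem ROTQ_sys1 (hLUN : LUN_stmt) {k : ℕ} [NeZero k] (f : Polynomial ℂ) (b : ZMod k → ℂ)
    (ψ : ℂ → ℂ) (δ₁ δ₂ a₁ a₂ : ℝ) (G₁ G₂ : ℕ → ℂ → ℂ) (Q : ℕ) (ha : a₁ ≤ a₂)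
    (h1 : Sys1 f b ψ δ₁ (fun _ => a₁) G₁ Q) (h2 : Sys1 f b ψ δ₂ (fun _ => a₂) G₂ Q) :
    ∀ q ≤ Q, EqOn (G₁ q) (G₂ q) (ball 0 (Real.exp (-a₂))) := by
  have hsub : ball (0 : ℂ) (Real.exp (-a₂)) ⊆ ball 0 (Real.exp (-a₁)) :=
    ball_subset_ball (Real.exp_le_exp.2 (by linarith))
  intro q
  induction q with
  | zero =>
    intro _ u _
    rw [h1.g0, h2.g0]
  | succ q ih =>
    intro hq
    have hih := ih (by omega)
    refine hLUN f (ball 0 (Real.exp (-a₂))) (G₁ (q + 1)) (G₂ (q + 1)) 0 isOpen_ball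
      (convex_ball _ _).isPreconnected
      ((h1.diff (q + 1) (by omega) hq).continuousOn.mono hsub)
      (h2.diff (q + 1) (by omega) hq).continuousOn ?_ ?_ (mem_ball_self (Real.exp_pos _)) ?_
    · intro w hw
      have e1 := (h1.rel q (by omega) w (hsub hw)).1
      have e2 := (h2.rel q (by omega) w hw).1
      have e3 := hih hw
      rw [e1, e2, e3]
    · intro w hw
      exact (h1.rel q (by omega) w (hsub hw)).2
    · rw [h1.val (q + 1) hq, h2.val (q + 1) hq]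

theorem ROTQ (hLUN : LUN_stmt) (hNH : MPS.NH_stmt) (hPT2 : PT2_stmt) (hP2A : P2A_stmt)
    (hLEA : LEA_stmt) (hINC : INC_stmt) : ROTQ_stmt := by
  intro n k _ f b g ψ ra R ε y ρ₁ r δ χ G1 ps G G' H hρr hH1 hδρ hεδ hερ hK q hq1 hqk
  obtain ⟨hsu2, hsys, hQ⟩ := H
  have hH : H2 n k f b g ψ ra R ε y ρ₁ χ G1 ps (fun _ => r) G k := ⟨hsu2, hsys, hQ⟩
  have hρ : 0 < ρ₁ := hsu2.r0
  have hρ1 : 16 * ρ₁ ≤ 1 := hsu2.r1
  have hρ2 : 0 < ρ₁ ^ 2 := by positivity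
  have hδ0 : 0 < δ := (hH1 q hqk).d0
  set x : ℂ := (y : ℂ) * I with hx
  have hxre : x.re = 0 := by simp [hx]
  -- the base point
  set w₀ : ℂ := x - (ρ₁ / 4 : ℝ) with hw₀
  have hw₀' : w₀ = ctr y ρ₁ := by rw [hw₀, hx]; unfold ctr; push_cast; ring
  have hw₀re : w₀.re = -(ρ₁ / 4) := by
    rw [hw₀, sub_re, hxre, ofReal_re]; ring
  have hHPo : ∀ a : ℝ, IsOpen (HP a) := fun a => isOpen_lt continuous_re continuous_const
  have hHPc : ∀ a : ℝ, Convex ℝ (HP a) := fun a => convex_halfSpace_re_lt _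
  have hw₀n : ‖w₀ - x‖ = ρ₁ / 4 := by
    rw [hw₀, show x - ((ρ₁ / 4 : ℝ) : ℂ) - x = -((ρ₁ / 4 : ℝ) : ℂ) by ring, norm_neg,
      Complex.norm_real, Real.norm_of_nonneg (by positivity)]
  -- agreement of the two systems
  have hG1 : ∀ p ≤ k, G' p (Complex.exp w₀) = G1 p (Complex.exp w₀) := by
    intro p hp
    refine ROTQ_sys1 hLUN f b (ψ 0) δ (ρ₁ / 64) (3 * δ) (3 * (ρ₁ / 64)) G' G1 k
      (by linarith) (hH1 k le_rfl).sys hsu2.s1 p hp ?_
    rw [mem_ball_zero_iff, Complex.norm_exp, hw₀re, Real.exp_lt_exp]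
    linarith
  have hagree' : ∀ p ≤ k, ∀ w ∈ ball (ctr y ρ₁) r ∩ HP (3 * δ), G p w = GW G' p w := by
    intro p
    induction p with
    | zero =>
      intro _ w hw
      have h1 : G 0 = χ := hsys.g0
      have h2 : G' 0 = ψ 0 := (hH1 k le_rfl).sys.g0
      have h3 : w ∈ HP 0 := by
        have : w.re < -(3 * δ) := hw.2
        show w.re < -0
        linarith
      rw [h1, hsu2.ext h3]
      show hat (ψ 0) w = G' 0 (Complex.exp w)
      rw [h2]
      rfl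
    | succ p ih =>
      intro hp
      have hih := ih (by omega)
      have hconv : Convex ℝ (ball (ctr y ρ₁) r ∩ HP (3 * δ)) := (convex_ball _ _).inter (hHPc _)
      have hmaps : ∀ w ∈ ball (ctr y ρ₁) r ∩ HP (3 * δ), Complex.exp w ∈ ball (0 : ℂ) (Real.exp (-(3 * δ))) := by
        intro w hw
        rw [mem_ball_zero_iff, Complex.norm_exp, Real.exp_lt_exp]
        exact hw.2
      refine hLUN f (ball (ctr y ρ₁) r ∩ HP (3 * δ)) (G (p + 1)) (GW G' (p + 1)) w₀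
        (isOpen_ball.inter (hHPo _)) hconv.isPreconnected ?_ ?_ ?_ ?_ ⟨?_, ?_⟩ ?_
      · exact ((hsys.diff (p + 1) hp).continuousOn).mono inter_subset_left
      · refine ContinuousOn.comp
          ((hH1 k le_rfl).sys.diff (p + 1) (by omega) hp).continuousOn
          Complex.continuous_exp.continuousOn ?_
        intro w hw
        exact hmaps w hw
      · intro w hw
        have e1 := (hsys.rel p (by omega) w hw.1).1
        have e2 := ((hH1 k le_rfl).sys.rel p (by omega) _ (hmaps w hw)).1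
        have e3 : G p w = G' p (Complex.exp w) := hih w hw
        show f.eval (G (p + 1) w) = f.eval (G' (p + 1) (Complex.exp w))
        rw [e1, e2, e3]
      · intro w hw
        exact (hsys.rel p (by omega) w hw.1).2
      · rw [hw₀']
        exact mem_ball_self (by linarith)
      · show w₀.re < _
        rw [hw₀re]
        linarith
      · have h1 := hsys.val (p + 1) hp
        rw [← hw₀'] at h1
        rw [h1]
        exact (hG1 (p + 1) hp).symm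
  -- Phase 1
  obtain ⟨Φ₁, κ, hΦ₁d, hΦ₁, hΦ₁v, hκ, -⟩ := hINC n k f b g ψ ra R ε δ (fun _ => 3 * δ) G' q
    (hH1 q hqk) hq1 hεδ
  have hκre : |κ.re| ≤ 5 * δ := by
    have h1 := hK q hq1 hqk
    rw [← hκ, Complex.norm_exp, Real.log_exp] at h1
    exact h1
  obtain ⟨-, -, -, hLS, -, -, -⟩ := hP2A n k f b g ψ ra R ε y ρ₁ χ G1 ps (fun _ => r) G k hH
  obtain ⟨hav, -, hτd, -, -⟩ := hLEA k f b g G (ball (ctr y ρ₁) r) k hsu2.su.cyc
    isOpen_ball (hLS k le_rfl)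
  -- the disc
  set D : Set ℂ := ball x (5 * ρ₁ / 8) with hD
  have hDn : ∀ w ∈ D, ‖w - ctr y ρ₁‖ < 7 * ρ₁ / 8 := by
    intro w hw
    rw [hD, mem_ball, dist_eq_norm] at hw
    calc ‖w - ctr y ρ₁‖ = ‖(w - x) - (w₀ - x)‖ := by rw [← hw₀']; congr 1; ring
      _ ≤ ‖w - x‖ + ‖w₀ - x‖ := norm_sub_le _ _
      _ < 7 * ρ₁ / 8 := by
        rw [hw₀n]
        linarith
  have hDr : D ⊆ ball (ctr y ρ₁) r := by
    intro w hw
    rw [mem_ball, dist_eq_norm]
    linarith [hDn w hw]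
  have hτ0 : ∀ w ∈ D, ‖tau b g G q w - 1‖ ≤ δ / (12 * ρ₁) := by
    intro w hw
    have hwn := hDn w hw
    obtain ⟨hb1, hb2⟩ := hPT2 n k f b g ψ ra R ε y ρ₁ χ G1 ps (fun _ => r) G k hH q hq1 hqk w
      (ρ₁ / 8) (by positivity) (by
        show ‖w - ctr y ρ₁‖ + ρ₁ / 8 ≤ r
        linarith)
    refine (hb2.trans hb1).trans ?_
    calc 130 * ε / (ρ₁ / 8) ^ 2 ≤ 130 * (ρ₁ * δ / 10 ^ 6) / (ρ₁ / 8) ^ 2 := by gcongr
      _ = (130 * 64 / 10 ^ 6) * (δ / ρ₁) := by field_simp; norm_num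
      _ ≤ (1 / 12) * (δ / ρ₁) := by
          refine mul_le_mul_of_nonneg_right (by norm_num) (by positivity)
      _ = δ / (12 * ρ₁) := by field_simp
  have hδρ' : δ / (12 * ρ₁) ≤ 1 / 100 := by
    rw [div_le_div_iff₀ (by positivity) (by norm_num)]
    linarith
  have hτ1 : ∀ w ∈ D, ‖tau b g G q w - 1‖ ≤ 1 / 100 := fun w hw => (hτ0 w hw).trans hδρ'
  obtain ⟨σ, hσd, hσ⟩ := ROT_sqrt D (tau b g G q) isOpen_ball ((hτd q hqk).mono hDr) hτ1
  have hσ0 : ∀ w ∈ D, ‖σ w - 1‖ ≤ δ / (12 * ρ₁) := fun w hw => ((hσ w hw).2).trans (hτ0 w hw)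
  have hσ1 : ∀ w ∈ D, ‖σ w - 1‖ ≤ 1 / 100 := fun w hw => (hσ0 w hw).trans hδρ'
  have hw₀D : w₀ ∈ D := by
    rw [hD, mem_ball, dist_eq_norm, hw₀n]
    linarith
  have hex : Complex.IsExactOn σ D := hσd.isExactOn_ball
  obtain ⟨Φ, hΦ0, hΦd⟩ := hex.with_val_at w₀ (Φ₁ w₀)
  -- agreement with Φ₁
  have hUo : IsOpen (D ∩ HP (3 * δ + δ / 8)) := isOpen_ball.inter (hHPo _)
  have hUc : Convex ℝ (D ∩ HP (3 * δ + δ / 8)) := (convex_ball _ _).inter (hHPc _)
  have hw₀U : w₀ ∈ D ∩ HP (3 * δ + δ / 8) := by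
    refine ⟨hw₀D, ?_⟩
    show w₀.re < _
    rw [hw₀re]
    linarith
  have htau : ∀ w ∈ D ∩ HP (3 * δ + δ / 8), tau b g G q w = tau b g (GW G') q w := by
    intro w hw
    have hev : G q =ᶠ[𝓝 w] GW G' q := by
      refine Filter.eventuallyEq_of_mem (hUo.mem_nhds hw) fun z hz => ?_
      refine hagree' q hqk z ⟨hDr hz.1, ?_⟩
      have : z.re < -(3 * δ + δ / 8) := hz.2
      show z.re < -(3 * δ)
      linarith
    unfold tau
    rw [hev.deriv_eq, hev.eq_of_nhds]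
  have hsame : EqOn Φ Φ₁ (D ∩ HP (3 * δ + δ / 8)) := by
    refine hUo.eqOn_of_deriv_eq hUc.isPreconnected
      (fun w hw => (hΦd w hw.1).differentiableAt.differentiableWithinAt)
      (hΦ₁d.mono inter_subset_right) ?_ hw₀U hΦ0
    intro w hw
    rw [(hΦd w hw.1).deriv]
    obtain ⟨-, h2, h3⟩ := hΦ₁ w hw.2
    have h4 : σ w ^ 2 = deriv Φ₁ w ^ 2 := by rw [(hσ w hw.1).1, h2, htau w hw]
    rcases sq_eq_sq_iff_eq_or_eq_neg.1 h4 with h5 | h5
    · exact h5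
    · exfalso
      have h6 := hσ1 w hw.1
      have h7 : ‖(-2 : ℂ)‖ ≤ 1 / 100 + 1 / 4 := by
        calc ‖(-2 : ℂ)‖ = ‖(σ w - 1) + (deriv Φ₁ w - 1)‖ := by rw [h5]; congr 1; ring
          _ ≤ ‖σ w - 1‖ + ‖deriv Φ₁ w - 1‖ := norm_add_le _ _
          _ ≤ _ := add_le_add h6 h3
      rw [norm_neg] at h7
      norm_num at h7
  -- the bound
  have hE : ∀ w ∈ D, ‖Φ w - w - κ‖ ≤ δ := by
    intro w hw
    have hd : ∀ w ∈ D, DifferentiableAt ℂ (fun w => Φ w - w) w := fun w hw =>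
      (hΦd w hw).differentiableAt.sub differentiableAt_id
    have hbd : ∀ w ∈ D, ‖deriv (fun w => Φ w - w) w‖ ≤ δ / (12 * ρ₁) := by
      intro w hw
      have : deriv (fun w => Φ w - w) w = σ w - 1 := ((hΦd w hw).sub (hasDerivAt_id w)).deriv
      rw [this]
      exact hσ0 w hw
    have h1 := Convex.norm_image_sub_le_of_norm_deriv_le hd hbd (convex_ball _ _) hw₀D hw
    have h2 : ‖Φ w₀ - w₀ - κ‖ ≤ δ / 32 := by
      rw [hΦ0]
      exact (hΦ₁ w₀ hw₀U.2).1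
    have h3 : ‖w - w₀‖ ≤ 7 * ρ₁ / 8 := by
      rw [hD, mem_ball, dist_eq_norm] at hw
      calc ‖w - w₀‖ = ‖(w - x) - (w₀ - x)‖ := by congr 1; ring
        _ ≤ ‖w - x‖ + ‖w₀ - x‖ := norm_sub_le _ _
        _ ≤ 5 * ρ₁ / 8 + ρ₁ / 4 := by
          rw [hw₀n]
          linarith
        _ = _ := by ring
    calc ‖Φ w - w - κ‖ = ‖(Φ w - w - (Φ w₀ - w₀)) + (Φ w₀ - w₀ - κ)‖ := by congr 1; ring
      _ ≤ ‖Φ w - w - (Φ w₀ - w₀)‖ + ‖Φ w₀ - w₀ - κ‖ := norm_add_le _ _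
      _ ≤ δ / (12 * ρ₁) * (7 * ρ₁ / 8) + δ / 32 := by
        refine add_le_add (h1.trans ?_) h2
        gcongr
      _ = (7 / 96 + 1 / 32) * δ := by field_simp; ring
      _ ≤ 1 * δ := mul_le_mul_of_nonneg_right (by norm_num) hδ0.le
      _ = δ := one_mul δ
  have hinj : InjOn Φ D := MQ.ROTQ_inj x (5 * ρ₁ / 8) Φ σ hΦd hσ1
  set v₀ : ℂ := ((y + κ.im : ℝ) : ℂ) * I with hv₀
  have hxκ : x + κ - v₀ = (κ.re : ℂ) := by
    rw [hv₀, hx]
    apply Complex.ext <;> simp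
  have hxκn : ‖x + κ - v₀‖ ≤ 5 * δ := by
    rw [hxκ, Complex.norm_real, Real.norm_eq_abs]
    exact hκre
  obtain ⟨h, hh⟩ := ROT_inv x κ v₀ (5 * ρ₁ / 8) (ρ₁ / 2) δ (ρ₁ / 4) Φ σ (by positivity)
    (by linarith) hΦd hσ1 hE (by linarith)
  -- the new piece
  have hGd : ∀ w ∈ D, HasDerivAt (G q) (deriv (G q) w) w := fun w hw =>
    ((hsys.diff q hqk).differentiableAt (isOpen_ball.mem_nhds (hDr hw))).hasDerivAt
  have hχ₁d : ∀ v ∈ ball v₀ (ρ₁ / 4), HasDerivAt (fun v => G q (h v))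
      (deriv (G q) (h v) * (σ (h v))⁻¹) v := by
    intro v hv
    obtain ⟨hv1, hv2, hv3⟩ := hh v hv
    exact (hGd (h v) hv1).comp v hv3
  have hnat1 : IsNat b g (fun v => G q (h v)) (ball v₀ (ρ₁ / 4)) := by
    refine ⟨fun v hv => (hχ₁d v hv).differentiableAt.differentiableWithinAt, ?_, ?_⟩
    · intro v hv j
      exact hav q hqk (h v) (hDr (hh v hv).1) j
    · intro v hv
      have hv1 := (hh v hv).1
      rw [(hχ₁d v hv).deriv, mul_pow, inv_pow, (hσ (h v) hv1).1]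
      have h0 : tau b g G q (h v) ≠ 0 := by
        intro h0
        have := hτ1 (h v) hv1
        rw [h0] at this
        norm_num at this
      have h2 : tau b g G q (h v) = deriv (G q) (h v) ^ 2 * BB b g (G q (h v)) := rfl
      field_simp
      rw [h2]
  have hnat0 : IsNat b g (hat (ψ (-(q : ZMod k)))) (HP 0) := by
    have h1 := (hNH k b g (-(q : ZMod k)) (ψ (-(q : ZMod k))) 1 (hsu2.su.mx _).pn).1
    have h2 : {w : ℂ | w.re < Real.log 1} = HP 0 := by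
      ext w
      simp [HP]
    rw [h2] at h1
    exact h1
  -- agreement on the overlap
  set V : Set ℂ := ball v₀ (ρ₁ / 4) with hV
  have hv₀re : v₀.re = 0 := by simp [hv₀]
  set v₁ : ℂ := v₀ - (ρ₁ / 8 : ℝ) with hv₁
  have hv₁re : v₁.re = -(ρ₁ / 8) := by
    rw [hv₁, sub_re, hv₀re, ofReal_re]; ring
  have hball : ∀ v ∈ ball v₁ (ρ₁ / 64), v ∈ V ∩ HP 0 ∧ v.re < -(ρ₁ / 8) + ρ₁ / 64 := by
    intro v hv
    rw [mem_ball, dist_eq_norm] at hv
    have h1 : v.re < -(ρ₁ / 8) + ρ₁ / 64 := by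
      have := (re_le_norm (v - v₁))
      rw [sub_re, hv₁re] at this
      linarith
    refine ⟨⟨?_, ?_⟩, h1⟩
    · rw [hV, mem_ball, dist_eq_norm]
      calc ‖v - v₀‖ = ‖(v - v₁) - ((ρ₁ / 8 : ℝ) : ℂ)‖ := by rw [hv₁]; congr 1; ring
        _ ≤ ‖v - v₁‖ + ‖((ρ₁ / 8 : ℝ) : ℂ)‖ := norm_sub_le _ _
        _ < ρ₁ / 4 := by
          rw [Complex.norm_real, Real.norm_of_nonneg (by positivity)]
          linarith
    · show v.re < -0
      linarith
  have hloc : ∀ v ∈ ball v₁ (ρ₁ / 64), G q (h v) = hat (ψ (-(q : ZMod k))) v := by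
    intro v hv
    obtain ⟨⟨hvV, hvH⟩, hvre⟩ := hball v hv
    obtain ⟨hv1, hv2, -⟩ := hh v hvV
    have hre : (h v).re < -(3 * δ + δ / 4) := by
      have h1 := hE (h v) hv1
      rw [hv2] at h1
      have h2 : (v - h v - κ).re = v.re - (h v).re - κ.re := by
        simp
      have h3 := (neg_le_of_abs_le (abs_re_le_norm (v - h v - κ)))
      rw [h2] at h3
      have h4 := neg_le_of_abs_le hκre
      linarith
    have hHP1 : h v ∈ HP (3 * δ + δ / 4) := hre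
    have hHP2 : h v ∈ D ∩ HP (3 * δ + δ / 8) := ⟨hv1, by
      show (h v).re < _
      linarith⟩
    obtain ⟨hneg, hval⟩ := hΦ₁v (h v) hHP1
    have h5 : Φ₁ (h v) = v := by rw [← hsame hHP2, hv2]
    rw [h5] at hval hneg
    rw [hagree' q hqk (h v) ⟨hDr hv1, by show (h v).re < -(3 * δ); linarith⟩, ← hval]
  have hoverlap : ∀ v ∈ V, v.re < 0 → G q (h v) = hat (ψ (-(q : ZMod k))) v := by
    have hOo : IsOpen (V ∩ HP 0) := isOpen_ball.inter (hHPo 0)
    have hOc : Convex ℝ (V ∩ HP 0) := (convex_ball _ _).inter (hHPc 0)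
    have han1 : AnalyticOnNhd ℂ (fun v => G q (h v)) (V ∩ HP 0) :=
      (hnat1.diff.mono inter_subset_left).analyticOnNhd hOo
    have han2 : AnalyticOnNhd ℂ (hat (ψ (-(q : ZMod k)))) (V ∩ HP 0) :=
      (hnat0.diff.mono inter_subset_right).analyticOnNhd hOo
    have hv₁m : v₁ ∈ V ∩ HP 0 := (hball v₁ (mem_ball_self (by positivity))).1
    have hev : (fun v => G q (h v)) =ᶠ[𝓝 v₁] hat (ψ (-(q : ZMod k))) :=
      Filter.eventuallyEq_of_mem (ball_mem_nhds v₁ (by positivity : 0 < ρ₁ / 64)) hloc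
    have := han1.eqOn_of_preconnected_of_eventuallyEq han2 hOc.isPreconnected hv₁m hev
    intro v hv hvre
    exact this ⟨hv, by show v.re < -0; linarith⟩
  obtain ⟨χ', hχ', hχe, hχV⟩ := MQ.ROTQ_glue b g (hat (ψ (-(q : ZMod k)))) (fun v => G q (h v)) V
    isOpen_ball hnat0 hnat1 hoverlap
  refine ⟨κ, Φ, χ', hκ, hκre, ?_, hχ', hχe, ?_⟩
  · intro w hw
    exact hE w (ball_subset_ball (by linarith) hw)
  · intro w hw
    have hwD : w ∈ D := ball_subset_ball (by linarith) hw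
    have hVw : Φ w ∈ V := by
      rw [hV, mem_ball, dist_eq_norm]
      rw [mem_ball, dist_eq_norm] at hw
      calc ‖Φ w - v₀‖ = ‖(Φ w - w - κ) + (w - x) + (x + κ - v₀)‖ := by congr 1; ring
        _ ≤ ‖Φ w - w - κ‖ + ‖w - x‖ + ‖x + κ - v₀‖ := norm_add₃_le
        _ < ρ₁ / 4 := by
          have := hE w hwD
          linarith
    refine ⟨hVw, ?_⟩
    rw [hχV hVw]
    obtain ⟨h1, h2, -⟩ := hh (Φ w) hVw
    show G q (h (Φ w)) = G q w
    rw [hinj h1 hwD h2]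

end PPS
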