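import Pool.Agent.helper25.PP.Spec

set_option autoImplicit false

namespace PP

open Finset SimpleGraph CT

theorem NB4 : NB4_stmt := by
  intro V _ _ G
  have key : ∀ u, Nat.card {w // G.Adj u w} = (nb G u).card := by
    intro u
    classical
    rw [Nat.card_eq_fintype_card, Fintype.card_subtype]
    rfl
  have h1 : FourRegular G ↔ ∀ u, (nb G u).card = 4 := by
    unfold FourRegular
    constructor
    · intro h u
      rw [← key]
      exact h u
    · intro h u
      rw [key]
      exact h u
  refine ⟨h1, fun hG => ?_⟩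
  have h4 := h1.1 hG
  have hB1 : ∀ B : Finset V, ((inn G univ).filter fun p => p.1 ∈ B).card = 4 * B.card := by
    intro B
    have hm : ∀ p ∈ (inn G univ).filter (fun p => p.1 ∈ B), p.1 ∈ B :=
      fun p hp => (Finset.mem_filter.1 hp).2
    rw [Finset.card_eq_sum_card_fiberwise hm]
    have hf : ∀ u ∈ B, (((inn G univ).filter fun p => p.1 ∈ B).filter fun p => p.1 = u).card
        = 4 := by
      intro u hu
      rw [← h4 u]
      refine Finset.card_bij' (fun p _ => p.2) (fun w _ => (u, w)) ?_ ?_ ?_ ?_
      · intro p hp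
        simp only [Finset.mem_filter, mem_ein] at hp
        rw [mem_nb]
        have h2 := hp.1.1.2
        rwa [hp.2] at h2
      · intro w hw
        rw [mem_nb] at hw
        refine Finset.mem_filter.2 ⟨Finset.mem_filter.2 ⟨(mem_ein G _ _).2 ?_, hu⟩, rfl⟩
        exact ⟨⟨Finset.mem_univ _, Finset.mem_univ _⟩, hw⟩
      · intro p hp
        have h2 := (Finset.mem_filter.1 hp).2
        exact Prod.ext h2.symm rfl
      · intro w hw
        rfl
    rw [Finset.sum_congr rfl hf, Finset.sum_const, smul_eq_mul, mul_comm]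
  have hB2 : ∀ B : Finset V, ((inn G univ).filter fun p => p.2 ∈ B).card = 4 * B.card := by
    intro B
    rw [← hB1 B]
    refine Finset.card_bij' (fun p _ => (p.2, p.1)) (fun p _ => (p.2, p.1)) ?_ ?_ ?_ ?_
    · intro p hp
      simp only [Finset.mem_filter, mem_ein] at hp ⊢
      exact ⟨⟨⟨Finset.mem_univ _, Finset.mem_univ _⟩, hp.1.2.symm⟩, hp.2⟩
    · intro p hp
      simp only [Finset.mem_filter, mem_ein] at hp ⊢
      exact ⟨⟨⟨Finset.mem_univ _, Finset.mem_univ _⟩, hp.1.2.symm⟩, hp.2⟩
    · intro p hp
      rfl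
    · intro p hp
      rfl
  refine ⟨?_, hB1, hB2⟩
  have h5 := hB1 Finset.univ
  have h6 : (inn G univ).filter (fun p => p.1 ∈ (Finset.univ : Finset V)) = inn G univ := by
    apply Finset.filter_true_of_mem
    intro p _
    exact Finset.mem_univ _
  rw [h6, Finset.card_univ] at h5
  exact h5

end PP
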