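import Pool.Agent.helper36.PP.SpecB
import Pool.Agent.helper71.MQ.COC

/-!
# pp:COC: algebra of the transport derivatives (adapted from helper71/MQ/COC.lean)
-/

set_option autoImplicit false

open Complex Metric Set Filter Topology MeasureTheory MPS

noncomputable section

namespace PPS

theorem COC : COC_stmt := by
  intro k _ f b ψ hf hd i
  have hP : ∀ (i : ZMod k) (q : ℕ), ∏ j ∈ Finset.Icc 1 q, fd f (b (i - (j : ZMod k))) ≠ 0 :=
    fun i q => Finset.prod_ne_zero_iff.2 fun j _ => hf _
  refine ⟨fun q => ?_, ?_, ?_, fun q q' => ?_⟩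
  · unfold Kq
    exact div_ne_zero (hd i) (mul_ne_zero (hd _) (hP i q))
  · unfold Kq
    simp only [Nat.cast_zero, sub_zero]
    rw [Finset.Icc_eq_empty (by norm_num), Finset.prod_empty, mul_one]
    exact div_self (hd i)
  · unfold Kq rho
    rw [MQ.COC_prod (fun x => fd f (b x)) i]
    simp only [ZMod.natCast_self, sub_zero]
    have h1 : ∏ x, fd f (b x) ≠ 0 := Finset.prod_ne_zero_iff.2 fun j _ => hf _
    have h2 := hd i
    field_simp
  · have hprod : ∏ j ∈ Finset.Icc 1 (q + q'), fd f (b (i - (j : ZMod k))) =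
        (∏ j ∈ Finset.Icc 1 q, fd f (b (i - (j : ZMod k)))) *
        ∏ j ∈ Finset.Icc 1 q', fd f (b (i - (q : ZMod k) - (j : ZMod k))) := by
      induction q' with
      | zero => simp
      | succ m ih =>
        rw [← Nat.add_assoc, Finset.prod_Icc_succ_top (by omega), ih,
          Finset.prod_Icc_succ_top (by omega), mul_assoc]
        have e : i - ((q + m + 1 : ℕ) : ZMod k) = i - (q : ZMod k) - ((m + 1 : ℕ) : ZMod k) := by
          push_cast
          ring
        rw [e]
    unfold Kq
    rw [hprod]
    have e2 : i - ((q + q' : ℕ) : ZMod k) = i - (q : ZMod k) - (q' : ZMod k) := by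
      push_cast
      ring
    rw [e2]
    have h1 := hd i
    have h2 := hd (i - (q : ZMod k))
    have h3 := hd (i - (q : ZMod k) - (q' : ZMod k))
    have h4 := hP i q
    have h5 := hP (i - (q : ZMod k)) q'
    field_simp

end PPS
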