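import Pool.Agent.helper57.PP.Spec

/-!
# Project pp (MP_974a61_co), row CR: the height function
-/

set_option autoImplicit false

namespace Pool.Agent.helper57.PP

open Finset

/-- increasing values between two rational numbers -/
theorem CR_fill {W : Type} [DecidableEq W] (mid : List W) (h : mid.Nodup) (p q : ℚ) (hpq : p < q) :
    ∃ g : W → ℚ, mid.Pairwise (fun u v => g u < g v) ∧ ∀ y ∈ mid, p < g y ∧ g y < q := by
  induction mid generalizing p with
  | nil => exact ⟨fun _ => 0, List.Pairwise.nil, fun y hy => absurd hy (by simp)⟩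
  | cons c l ih =>
    obtain ⟨hc, hl⟩ := List.nodup_cons.1 h
    have h1 : (p + q) / 2 < q := by linarith
    have h2 : p < (p + q) / 2 := by linarith
    obtain ⟨g, hg1, hg2⟩ := ih hl ((p + q) / 2) h1
    have hne : ∀ y ∈ l, y ≠ c := fun y hy h => hc (h ▸ hy)
    obtain ⟨g', e1, e2⟩ : ∃ g' : W → ℚ, g' c = (p + q) / 2 ∧ ∀ v, v ≠ c → g' v = g v :=
      ⟨fun v => if v = c then (p + q) / 2 else g v, if_pos rfl, fun v hv => if_neg hv⟩
    refine ⟨g', ?_, ?_⟩
    · rw [List.pairwise_cons]
      constructor
      · intro y hy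
        rw [e1, e2 y (hne y hy)]
        exact (hg2 y hy).1
      · refine List.Pairwise.imp_of_mem ?_ hg1
        intro u v hu hv huv
        rw [e2 u (hne u hu), e2 v (hne v hv)]
        exact huv
    · intro y hy
      rw [List.mem_cons] at hy
      rcases hy with rfl | hy
      · rw [e1]
        exact ⟨h2, h1⟩
      · rw [e2 y (hne y hy)]
        exact ⟨h2.trans (hg2 y hy).1, (hg2 y hy).2⟩

/-- Row CR. -/
theorem CR : CR_stmt := by
  intro W _ T R R' a z bs C C' σ hσ
  induction hσ with
  | nil R C h =>
    intro ρ0 hρ0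
    exact ⟨ρ0, fun v _ => rfl, hρ0, fun s hs => absurd hs (by simp)⟩
  | cons R A y0 x yr B mid σ R' C' h hx hnd hfan hmid hrest ih =>
    intro ρ0 hρ0
    have hmidnd : mid.Nodup := by
      have h1 := (List.nodup_cons.1 hnd).2
      exact (List.nodup_append.1 h1).1
    rw [List.pairwise_append, List.pairwise_cons, List.pairwise_cons] at hρ0
    obtain ⟨hA, ⟨hy0, ⟨hxr, hL2⟩⟩, hAB⟩ := hρ0
    have hxyr : ρ0 x < ρ0 yr := hxr yr (by simp)
    have hy0x : ρ0 y0 < ρ0 x := hy0 x (by simp)
    obtain ⟨g, hg1, hg2⟩ := CR_fill mid hmidnd (ρ0 x) (ρ0 yr) hxyr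
    have hAm : ∀ u ∈ A, u ∉ mid := fun u hu hm => hmid u hm (by simp [hu])
    have hy0m : y0 ∉ mid := fun hm => hmid y0 hm (by simp)
    have hxm : x ∉ mid := fun hm => hmid x hm (by simp)
    have hyrm : ∀ u ∈ yr :: B, u ∉ mid := by
      intro u hu hm
      apply hmid u hm
      simp only [List.mem_append, List.mem_cons] at hu ⊢
      tauto
    have hyrle : ∀ v ∈ yr :: B, ρ0 yr ≤ ρ0 v := by
      intro v hv
      rw [List.mem_cons] at hv
      rcases hv with rfl | hv
      · exact le_rfl
      · exact ((List.pairwise_cons.1 hL2).1 v hv).le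
    obtain ⟨ρ1, f1, f2⟩ : ∃ ρ1 : W → ℚ, (∀ v ∈ mid, ρ1 v = g v) ∧ ∀ v, v ∉ mid → ρ1 v = ρ0 v :=
      ⟨fun v => if v ∈ mid then g v else ρ0 v, fun v hv => if_pos hv, fun v hv => if_neg hv⟩
    obtain ⟨ρ, hρ1, hρ2, hρ3⟩ := ih ρ1 (by
      rw [List.pairwise_append]
      refine ⟨?_, ?_, ?_⟩
      · refine List.Pairwise.imp_of_mem ?_ hA
        intro u v hu hv huv
        rw [f2 u (hAm u hu), f2 v (hAm v hv)]
        exact huv
      · rw [List.pairwise_cons, List.pairwise_append]
        refine ⟨?_, ?_, ?_, ?_⟩
        · intro v hv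
          rw [f2 y0 hy0m]
          rw [List.mem_append] at hv
          rcases hv with hv | hv
          · rw [f1 v hv]
            exact hy0x.trans (hg2 v hv).1
          · rw [f2 v (hyrm v hv)]
            exact hy0x.trans (hxyr.trans_le (hyrle v hv))
        · refine List.Pairwise.imp_of_mem ?_ hg1
          intro u v hu hv huv
          rw [f1 u hu, f1 v hv]
          exact huv
        · refine List.Pairwise.imp_of_mem ?_ hL2
          intro u v hu hv huv
          rw [f2 u (hyrm u hu), f2 v (hyrm v hv)]
          exact huv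
        · intro u hu v hv
          rw [f1 u hu, f2 v (hyrm v hv)]
          exact (hg2 u hu).2.trans_le (hyrle v hv)
      · intro u hu v hv
        rw [f2 u (hAm u hu)]
        rw [List.mem_cons, List.mem_append] at hv
        rcases hv with rfl | hv | hv
        · rw [f2 _ hy0m]
          exact hAB u hu v (by simp)
        · rw [f1 v hv]
          exact (hAB u hu x (by simp)).trans (hg2 v hv).1
        · rw [f2 v (hyrm v hv)]
          apply hAB u hu v
          rw [List.mem_cons, List.mem_cons]
          exact Or.inr (Or.inr hv))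
    have hxvs : x ∉ vs (R \ cof R {x}) := by
      rw [mem_vs]
      rintro ⟨t, ht, hxt⟩
      rw [mem_sdiff] at ht
      exact ht.2 (mem_cof.2 ⟨ht.1, Finset.singleton_subset_iff.2 hxt⟩)
    have hmidvs : ∀ y ∈ mid, y ∈ vs R := by
      intro y hy
      have h1 : y ∈ pth y0 mid yr := by
        unfold pth
        simp [hy]
      obtain ⟨e, he, hye⟩ := exists_pe_of_mem h1
      have h2 : insert x e ∈ cof R {x} := by
        rw [hfan]
        unfold fan
        exact mem_image_of_mem _ he
      exact mem_vs.2 ⟨insert x e, (mem_cof.1 h2).1, mem_insert_of_mem hye⟩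
    have hvs : ∀ v, v ∉ vs R → v ∉ vs (R \ cof R {x}) := fun v hv hv' =>
      hv (vs_mono sdiff_subset hv')
    have key : ∀ v, v ∈ A ++ y0 :: x :: yr :: B ∨ v ∉ vs R → ρ v = ρ0 v := by
      rintro v (hv | hv)
      · have hvm : v ∉ mid := fun hm => hmid v hm hv
        by_cases hvx : v = x
        · have h1 := hρ1 v (Or.inr (hvx ▸ hxvs))
          rw [f2 v hvm] at h1
          exact h1
        · have h1 := hρ1 v (Or.inl (by
            simp only [List.mem_append, List.mem_cons] at hv ⊢
            tauto))
          rw [f2 v hvm] at h1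
          exact h1
      · have hvm : v ∉ mid := fun hm => hv (hmidvs v hm)
        have h1 := hρ1 v (Or.inr (hvs v hv))
        rw [f2 v hvm] at h1
        exact h1
    refine ⟨ρ, key, hρ2, ?_⟩
    intro s hs
    rw [List.mem_cons] at hs
    rcases hs with rfl | hs
    · constructor
      · change ρ y0 < ρ x
        rw [key y0 (Or.inl (by simp)), key x (Or.inl (by simp))]
        exact hy0x
      · intro y hy
        change y ∈ mid at hy
        change ρ x < ρ y
        rw [key x (Or.inl (by simp))]
        have h1 := hρ1 y (Or.inl (by simp [hy]))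
        rw [f1 y hy] at h1
        rw [h1]
        exact (hg2 y hy).1
    · exact hρ3 s hs

end Pool.Agent.helper57.PP
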