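import Pool.Agent.helper57.PP.Spec

/-!
# Project pp (MP_974a61_co), row WX: a cocycle which is not a coboundary
-/

set_option autoImplicit false

namespace Pool.Agent.helper57.PP

open Finset

theorem WX_bd_singleton {V : Type} [DecidableEq V] (t : Finset V) :
    bd {t} = t.powersetCard 2 := by
  ext e
  rw [mem_bd, mem_powersetCard]
  by_cases h : e ⊆ t
  · have h1 : cof {t} e = {t} := by
      ext s
      rw [mem_cof, mem_singleton]
      constructor
      · exact fun hs => hs.1
      · rintro rfl
        exact ⟨rfl, h⟩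
    rw [h1, card_singleton]
    constructor
    · exact fun hs => ⟨h, hs.1⟩
    · exact fun hs => ⟨hs.2, odd_one⟩
  · have h1 : cof {t} e = ∅ := by
      ext s
      rw [mem_cof, mem_singleton]
      simp only [notMem_empty, iff_false]
      rintro ⟨rfl, hs⟩
      exact h hs
    rw [h1, card_empty]
    constructor
    · intro hs
      exact absurd hs.2 (by decide)
    · exact fun hs => absurd hs.1 h

theorem WX_bd_F {V : Type} [DecidableEq V] (F : Finset (Finset V)) (hF : IsSurface F) :
    bd F = ∅ := by
  ext e
  simp only [notMem_empty, iff_false]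
  intro he
  have h1 := hF.two e (bd_subset_edges F he)
  have h2 := (mem_bd.1 he).2
  rw [h1] at h2
  exact absurd h2 (by decide)

theorem WX_ind {α : Type} [DecidableEq α] (P Q : Finset α) (a : α) :
    (if a ∈ symmDiff P Q then (1 : ZMod 2) else 0) =
      (if a ∈ P then 1 else 0) + (if a ∈ Q then 1 else 0) := by
  have hiff : a ∈ symmDiff P Q ↔ (a ∈ P ∧ a ∉ Q) ∨ (a ∈ Q ∧ a ∉ P) := mem_symmDiff
  by_cases h1 : a ∈ P
  · by_cases h2 : a ∈ Q
    · rw [if_pos h1, if_pos h2, if_neg (by tauto)]
      decide
    · rw [if_pos h1, if_neg h2, if_pos (by tauto)]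
      decide
  · by_cases h2 : a ∈ Q
    · rw [if_neg h1, if_pos h2, if_pos (by tauto)]
      decide
    · rw [if_neg h1, if_neg h2, if_neg (by tauto)]
      decide

theorem WX_disj {α : Type} [DecidableEq α] {P Q Y : Finset α} (h1 : Disjoint P Y)
    (h2 : Disjoint Q Y) : Disjoint (symmDiff P Q) Y := by
  rw [Finset.disjoint_left] at h1 h2 ⊢
  intro x hx
  rw [mem_symmDiff] at hx
  rcases hx with hx | hx
  · exact h1 hx.1
  · exact h2 hx.1

/-- Row WX. -/
theorem WX (h1 : DT_stmt) (h2 : TR2_stmt) : WX_stmt := by
  intro V _ _ F hF hconn hne hcard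
  obtain ⟨Y, hYsub, hYcard, -, hB, hu⟩ := h1 V F hF hconn hne
  have hbdF : bd F = ∅ := WX_bd_F F hF
  -- the set `S0`
  have hV : Nonempty V := by
    obtain ⟨t, ht⟩ := hne
    have h3 := hF.card3 t ht
    have h4 : t.Nonempty := by
      rw [← Finset.card_pos]
      omega
    exact ⟨h4.choose⟩
  have hX : (edges F \ Y).card + Y.card = (edges F).card := by
    rw [Finset.card_sdiff_of_subset hYsub]
    have := Finset.card_le_card hYsub
    omega
  obtain ⟨S0, hS0, hS0ne, hS0e⟩ := h2 V (edges F \ Y)
    (fun e he => (mem_edges.1 (mem_sdiff.1 he).1).1) (by omega)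
  obtain ⟨e0, he0⟩ := hS0ne
  choose B hBF hBY using fun e : Finset V => hB {e}
  let w : Finset V → ZMod 2 := fun e => if e0 ∈ symmDiff {e} (bd (B e)) then 1 else 0
  have step1 : ∀ S : Finset (Finset V), ∃ B' ⊆ F, Disjoint (symmDiff S (bd B')) Y ∧
      ∑ e ∈ S, w e = if e0 ∈ symmDiff S (bd B') then 1 else 0 := by
    intro S
    induction S using Finset.induction_on with
    | empty =>
      refine ⟨∅, empty_subset _, ?_, ?_⟩
      · rw [bd_empty, symmDiff_self]
        exact disjoint_bot_left
      · rw [bd_empty, symmDiff_self, sum_empty, if_neg]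
        exact notMem_empty _
    | insert e S he ih =>
      obtain ⟨B', hB'F, hB'Y, hB's⟩ := ih
      have hins : insert e S = symmDiff {e} S := by
        ext x
        rw [mem_insert, mem_symmDiff, mem_singleton]
        constructor
        · rintro (rfl | hx)
          · exact Or.inl ⟨rfl, he⟩
          · exact Or.inr ⟨hx, fun h => he (h ▸ hx)⟩
        · rintro (hx | hx)
          · exact Or.inl hx.1
          · exact Or.inr hx.1
      have hsd : symmDiff (insert e S) (bd (symmDiff (B e) B')) =
          symmDiff (symmDiff {e} (bd (B e))) (symmDiff S (bd B')) := by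
        rw [bd_symmDiff, hins]
        exact symmDiff_symmDiff_symmDiff_comm _ _ _ _
      refine ⟨symmDiff (B e) B', ?_, ?_, ?_⟩
      · intro x hx
        rw [mem_symmDiff] at hx
        rcases hx with hx | hx
        · exact hBF e hx.1
        · exact hB'F hx.1
      · rw [hsd]
        exact WX_disj (hBY e) hB'Y
      · rw [hsd, WX_ind, sum_insert he, hB's]
  have claim : ∀ S B' : Finset (Finset V), B' ⊆ F → Disjoint (symmDiff S (bd B')) Y →
      ∑ e ∈ S, w e = if e0 ∈ symmDiff S (bd B') then 1 else 0 := by
    intro S B1 hB1 hd1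
    obtain ⟨B2, hB2, hd2, hs2⟩ := step1 S
    have hbd : bd (symmDiff B1 B2) = symmDiff (symmDiff S (bd B1)) (symmDiff S (bd B2)) := by
      rw [bd_symmDiff, symmDiff_symmDiff_symmDiff_comm, symmDiff_self]
      exact (bot_symmDiff _).symm
    have hsub : symmDiff B1 B2 ⊆ F := by
      intro x hx
      rw [mem_symmDiff] at hx
      rcases hx with hx | hx
      · exact hB1 hx.1
      · exact hB2 hx.1
    have hemp : bd (symmDiff B1 B2) = ∅ := by
      rcases hu _ hsub (by rw [hbd]; exact WX_disj hd1 hd2) with h | h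
      · rw [h, bd_empty]
      · rw [h, hbdF]
    rw [bd_symmDiff] at hemp
    have heq : bd B1 = bd B2 := symmDiff_eq_bot.1 hemp
    rw [hs2, heq]
  refine ⟨w, ?_, S0, ?_, hS0e, ?_⟩
  · intro t ht
    rw [claim (t.powersetCard 2) {t} (by simpa using ht) (by
      rw [WX_bd_singleton, symmDiff_self]
      exact disjoint_bot_left), WX_bd_singleton, symmDiff_self, if_neg]
    exact notMem_empty _
  · exact hS0.trans sdiff_subset
  · rw [claim S0 ∅ (empty_subset _) (by
      rw [bd_empty]
      have : symmDiff S0 (∅ : Finset (Finset V)) = S0 := symmDiff_bot S0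
      rw [this, Finset.disjoint_left]
      intro x hx
      exact (mem_sdiff.1 (hS0 hx)).2), bd_empty]
    have : symmDiff S0 (∅ : Finset (Finset V)) = S0 := symmDiff_bot S0
    rw [this, if_pos he0]

end Pool.Agent.helper57.PP
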